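import Pool.Agent.R226.HD

/-!
# A spectral self-affine measure without overlap and without a Hadamard triple

`R = (12)`, `B = {0, 1, 8, 9}` in dimension one.
-/

set_option autoImplicit false
set_option linter.unusedSimpArgs false
set_option linter.unusedVariables false

open MeasureTheory Filter Topology
open scoped ENNReal NNReal Real Matrix

namespace Pool.Agent.Results.MP_a3bfa4_an.SpectralNoHadamard

variable {d : ℕ}

/-- `R` is expanding: every complex eigenvalue has modulus larger than `1`. -/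
def Expanding (R : Matrix (Fin d) (Fin d) ℤ) : Prop :=
  ∀ z : ℂ, (R.map (Int.cast : ℤ → ℂ)).charpoly.IsRoot z → 1 < ‖z‖

/-- `τ_b(x) = R⁻¹(x + b)`. -/
noncomputable def tau (R : Matrix (Fin d) (Fin d) ℤ) (b : Fin d → ℤ) (x : Fin d → ℝ) : Fin d → ℝ :=
  (R.map (Int.cast : ℤ → ℝ))⁻¹ *ᵥ (x + fun i => (b i : ℝ))

/-- `μ` is a Borel probability measure with `μ = (1/N) ∑_{b ∈ B} μ ∘ τ_b⁻¹`. -/
def IsSelfAffine (R : Matrix (Fin d) (Fin d) ℤ) (B : Finset (Fin d → ℤ))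
    (μ : Measure (Fin d → ℝ)) : Prop :=
  IsProbabilityMeasure μ ∧ μ = ((B.card : ℝ≥0∞)⁻¹) • ∑ b ∈ B, μ.map (tau R b)

/-- `T` is the attractor: the nonempty compact set with `T = ⋃_{b ∈ B} τ_b(T)`. -/
def IsAttractor (R : Matrix (Fin d) (Fin d) ℤ) (B : Finset (Fin d → ℤ)) (T : Set (Fin d → ℝ)) :
    Prop :=
  IsCompact T ∧ T.Nonempty ∧ T = ⋃ b ∈ B, tau R b '' T

/-- `exp(2πi⟨l, x⟩)`. -/
noncomputable def chi (l x : Fin d → ℝ) : ℂ :=
  Complex.exp (2 * π * Complex.I * ((∑ i, l i * x i : ℝ) : ℂ))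

/-- The inner product `∫ f conj(g) dμ` of `L²(μ)`. -/
noncomputable def ip (μ : Measure (Fin d → ℝ)) (f g : (Fin d → ℝ) → ℂ) : ℂ :=
  ∫ x, f x * (starRingEnd ℂ) (g x) ∂μ

/-- `μ` is spectral: for some countable `Λ` the exponentials `exp(2πi⟨λ, x⟩)`, `λ ∈ Λ`, form an
orthonormal basis of `L²(μ)`, that is, they are orthonormal and every `f ∈ L²(μ)` orthogonal to all
of them vanishes almost everywhere. -/
def IsSpectral (μ : Measure (Fin d → ℝ)) : Prop :=
  ∃ Λ : Set (Fin d → ℝ), Λ.Countable ∧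
    (∀ l ∈ Λ, ip μ (chi l) (chi l) = 1) ∧
    (∀ l ∈ Λ, ∀ l' ∈ Λ, l ≠ l' → ip μ (chi l) (chi l') = 0) ∧
    ∀ f : (Fin d → ℝ) → ℂ, MemLp f 2 μ → (∀ l ∈ Λ, ip μ f (chi l) = 0) → f =ᵐ[μ] 0

/-- no overlap: `μ(τ_b(T) ∩ τ_{b'}(T)) = 0` for distinct digits. -/
def NoOverlap (R : Matrix (Fin d) (Fin d) ℤ) (B : Finset (Fin d → ℤ)) (μ : Measure (Fin d → ℝ))
    (T : Set (Fin d → ℝ)) : Prop :=
  ∀ b ∈ B, ∀ b' ∈ B, b ≠ b' → μ (tau R b '' T ∩ tau R b' '' T) = 0

/-- The matrix `N^{-1/2} (exp(2πi⟨R⁻¹b, ℓ⟩))_{ℓ ∈ L, b ∈ B}`. -/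
noncomputable def H (R : Matrix (Fin d) (Fin d) ℤ) (B L : Finset (Fin d → ℤ)) : Matrix L B ℂ :=
  Matrix.of fun l b => ((1 / Real.sqrt B.card : ℝ) : ℂ) *
    chi ((R.map (Int.cast : ℤ → ℝ))⁻¹ *ᵥ (fun j => ((b : Fin d → ℤ) j : ℝ)))
      (fun j => ((l : Fin d → ℤ) j : ℝ))

/-- `A` is unitary: `A Aᴴ = 1` and `Aᴴ A = 1`. -/
def IsUnitaryMat {m n : Type*} [Fintype m] [Fintype n] [DecidableEq m] [DecidableEq n]
    (A : Matrix m n ℂ) : Prop :=
  A * Aᴴ = 1 ∧ Aᴴ * A = 1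

/-- `(R, B, L)` is a Hadamard triple: `#L = #B` and the matrix `H` is unitary. -/
def IsHadamardTriple (R : Matrix (Fin d) (Fin d) ℤ) (B L : Finset (Fin d → ℤ)) : Prop :=
  L.card = B.card ∧ IsUnitaryMat (H R B L)

open Pool.Agent.R226.HA

/-- points of the attractor on the line -/
noncomputable def X (ω : ℕ → Fin 4) : ℝ := ∑' k : ℕ, dg (ω k) * (1 / 12) ^ (k + 1)

lemma dg_nonneg (a : Fin 4) : 0 ≤ dg a := by
  fin_cases a <;> simp [dg]

lemma dg_le (a : Fin 4) : dg a ≤ 9 := by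
  fin_cases a <;> norm_num [dg]

lemma summable_X (ω : ℕ → Fin 4) : Summable (fun k : ℕ => dg (ω k) * ((1 : ℝ) / 12) ^ (k + 1)) := by
  have h : Summable (fun k : ℕ => 9 * ((1 : ℝ) / 12) ^ (k + 1)) := by
    apply Summable.mul_left
    exact (summable_nat_add_iff 1).2 (summable_geometric_of_lt_one (by norm_num) (by norm_num))
  refine Summable.of_nonneg_of_le (fun k => ?_) (fun k => ?_) h
  · exact mul_nonneg (dg_nonneg _) (by positivity)
  · exact mul_le_mul_of_nonneg_right (dg_le _) (by positivity)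

lemma X_cns (a : Fin 4) (ω : ℕ → Fin 4) : X (cns a ω) = (X ω + dg a) / 12 := by
  unfold X
  rw [(summable_X (cns a ω)).tsum_eq_zero_add]
  have : ∀ k, dg (cns a ω (k + 1)) * ((1 : ℝ) / 12) ^ (k + 1 + 1) =
      (dg (ω k) * (1 / 12) ^ (k + 1)) * (1 / 12) := by
    intro k
    show dg (ω k) * ((1 : ℝ) / 12) ^ (k + 1 + 1) = _
    ring
  simp only [this]
  rw [tsum_mul_right]
  show dg a * (1 / 12) ^ (0 + 1) + _ = _
  ring

lemma X_nonneg (ω : ℕ → Fin 4) : 0 ≤ X ω :=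
  tsum_nonneg fun k => mul_nonneg (dg_nonneg _) (by positivity)

lemma X_le (ω : ℕ → Fin 4) : X ω ≤ 9 / 11 := by
  have h : HasSum (fun k : ℕ => 9 * ((1 : ℝ) / 12) ^ (k + 1)) (9 / 11) := by
    have h1 := hasSum_geometric_of_lt_one (r := (1 : ℝ) / 12) (by norm_num) (by norm_num)
    have h2 := h1.mul_left (9 / 12)
    have e1 : (fun k : ℕ => 9 * ((1 : ℝ) / 12) ^ (k + 1)) = fun i => 9 / 12 * ((1 : ℝ) / 12) ^ i := by
      funext k; ring
    have e2 : (9 : ℝ) / 11 = 9 / 12 * (1 - 1 / 12)⁻¹ := by norm_num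
    rw [e1, e2]
    exact h2
  refine hasSum_le (fun k => ?_) (summable_X ω).hasSum h
  exact mul_le_mul_of_nonneg_right (dg_le _) (by positivity)

lemma X_cont : Continuous X := by
  unfold X
  refine continuous_tsum (u := fun k : ℕ => 9 * ((1 : ℝ) / 12) ^ (k + 1)) ?_ ?_ ?_
  · intro k
    have h1 : Continuous (fun ω : ℕ → Fin 4 => dg (ω k)) :=
      (continuous_of_discreteTopology (f := dg)).comp (continuous_apply k)
    exact h1.mul continuous_const
  · apply Summable.mul_left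
    exact (summable_nat_add_iff 1).2 (summable_geometric_of_lt_one (by norm_num) (by norm_num))
  · intro k ω
    rw [Real.norm_of_nonneg (mul_nonneg (dg_nonneg _) (by positivity))]
    exact mul_le_mul_of_nonneg_right (dg_le _) (by positivity)

lemma cns_surj (ω : ℕ → Fin 4) : ω = cns (ω 0) (fun n => ω (n + 1)) := by
  funext n
  cases n <;> rfl

/-- the attractor -/
def T12 : Set (Fin 1 → ℝ) := Set.range (fun ω : ℕ → Fin 4 => J (X ω))

lemma tau_eq (b : ℤ) (x : ℝ) : tau R12 (fun _ => b) (J x) = J ((x + b) / 12) := by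
  unfold tau
  rw [R12_inv]
  rfl

lemma mem_B4 (a : Fin 4) : ∃ b ∈ B4, ∀ x, tau R12 b (J x) = J ((x + dg a) / 12) := by
  fin_cases a
  · refine ⟨fun _ => 0, by simp [B4], fun x => ?_⟩
    rw [tau_eq]; simp [dg]
  · refine ⟨fun _ => 1, by simp [B4], fun x => ?_⟩
    rw [tau_eq]; simp [dg]
  · refine ⟨fun _ => 8, by simp [B4], fun x => ?_⟩
    rw [tau_eq]; simp [dg]
  · refine ⟨fun _ => 9, by simp [B4], fun x => ?_⟩
    rw [tau_eq]; simp [dg]

lemma mem_B4' (b : Fin 1 → ℤ) (hb : b ∈ B4) : ∃ a : Fin 4, dg a = (b 0 : ℝ) ∧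
    ∀ x, tau R12 b (J x) = J ((x + dg a) / 12) := by
  simp only [B4, Finset.mem_insert, Finset.mem_singleton] at hb
  rcases hb with rfl | rfl | rfl | rfl
  · refine ⟨0, by simp [dg], fun x => ?_⟩
    rw [tau_eq]; simp [dg]
  · refine ⟨1, by simp [dg], fun x => ?_⟩
    rw [tau_eq]; simp [dg]
  · refine ⟨2, by simp [dg], fun x => ?_⟩
    rw [tau_eq]; simp [dg]
  · refine ⟨3, by simp [dg], fun x => ?_⟩
    rw [tau_eq]; simp [dg]

lemma attractor : IsAttractor R12 B4 T12 := by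
  refine ⟨?_, ⟨_, fun _ => 0, rfl⟩, ?_⟩
  · apply isCompact_range
    have : Continuous J := by unfold J; fun_prop
    exact this.comp X_cont
  · ext y
    simp only [Set.mem_iUnion, Set.mem_image, exists_prop]
    constructor
    · rintro ⟨ω, rfl⟩
      obtain ⟨b, hb, hbx⟩ := mem_B4 (ω 0)
      refine ⟨b, hb, J (X (fun n => ω (n + 1))), ⟨_, rfl⟩, ?_⟩
      rw [hbx, ← X_cns, ← cns_surj]
    · rintro ⟨b, hb, x, ⟨ω, rfl⟩, rfl⟩
      obtain ⟨a, _, ha⟩ := mem_B4' b hb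
      refine ⟨cns a ω, ?_⟩
      show J (X (cns a ω)) = tau R12 b (J (X ω))
      rw [ha, X_cns]

lemma no_overlap : NoOverlap R12 B4 M T12 := by
  intro b hb b' hb' hne
  have : tau R12 b '' T12 ∩ tau R12 b' '' T12 = ∅ := by
    rw [Set.eq_empty_iff_forall_notMem]
    rintro y ⟨⟨x, ⟨ω, rfl⟩, hx⟩, ⟨x', ⟨ω', rfl⟩, hx'⟩⟩
    obtain ⟨a, ha0, ha⟩ := mem_B4' b hb
    obtain ⟨a', ha0', ha'⟩ := mem_B4' b' hb'
    have h1 : tau R12 b (J (X ω)) = y := hx
    have h2 : tau R12 b' (J (X ω')) = y := hx'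
    rw [ha] at h1
    rw [ha'] at h2
    have h3 := congrFun (h1.trans h2.symm) 0
    have h4 : (X ω + dg a) / 12 = (X ω' + dg a') / 12 := h3
    have h5 := X_nonneg ω
    have h6 := X_nonneg ω'
    have h7 := X_le ω
    have h8 := X_le ω'
    rw [ha0, ha0'] at h4
    have h9 : b 0 ≠ b' 0 := by
      intro h
      apply hne
      funext i
      have hi : i = 0 := Subsingleton.elim _ _
      subst hi
      exact h
    have h10 : ((b 0 - b' 0 : ℤ) : ℝ) < 1 := by push_cast; linarith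
    have h11 : (-1 : ℝ) < ((b 0 - b' 0 : ℤ) : ℝ) := by push_cast; linarith
    have h12 : b 0 - b' 0 < 1 := by exact_mod_cast h10
    have h13 : -1 < b 0 - b' 0 := by exact_mod_cast h11
    omega
  rw [this, measure_empty]

lemma chi_cont (l : Fin d → ℝ) : Continuous (chi l) := by
  unfold chi
  fun_prop

lemma chi_norm (l x : Fin d → ℝ) : ‖chi l x‖ = 1 := by
  unfold chi
  rw [show (2 * π * Complex.I * ((∑ i, l i * x i : ℝ) : ℂ)) =
    ((2 * π * (∑ i, l i * x i) : ℝ) : ℂ) * Complex.I by push_cast; ring]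
  exact Complex.norm_exp_ofReal_mul_I _

lemma chi_conj (l x : Fin d → ℝ) : (starRingEnd ℂ) (chi l x) =
    Complex.exp (-(2 * π * Complex.I * ((∑ i, l i * x i : ℝ) : ℂ))) := by
  unfold chi
  rw [← Complex.exp_conj]
  congr 1
  rw [map_mul, map_mul, Complex.conj_I, Complex.conj_ofReal, map_mul, Complex.conj_ofReal]
  have : (starRingEnd ℂ) 2 = 2 := Complex.conj_ofNat 2
  rw [this]
  ring

lemma spectral : IsSpectral M := by
  obtain ⟨h1, h2⟩ := M_spectral_Lam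
  have h3 : ∀ l l' : Fin 1 → ℝ, ip M (chi l) (chi l') =
      ∫ x, Complex.exp (2 * π * Complex.I * ((∑ i, (l i - l' i) * x i : ℝ) : ℂ)) ∂M := by
    intro l l'
    unfold ip
    congr 1
    funext x
    rw [chi_conj]
    unfold chi
    rw [← Complex.exp_add]
    congr 1
    simp only [sub_mul, Finset.sum_sub_distrib]
    push_cast
    ring
  refine ⟨Lam, Set.countable_range _, ?_, ?_, ?_⟩
  · intro l hl
    rw [h3]
    exact (h1 l hl l hl).1 rfl
  · intro l hl l' hl' hne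
    rw [h3]
    exact (h1 l hl l' hl').2 hne
  · intro f hf hz
    refine h2 f hf ?_
    intro l hl
    rw [← hz l hl]
    unfold ip
    congr 1
    funext x
    rw [chi_conj]

lemma no_hadamard (L : Finset (Fin 1 → ℤ)) : ¬ IsHadamardTriple R12 B4 L := by
  rintro ⟨hcard, hH, -⟩
  refine no_L L hcard ?_
  intro l hl l' hl' hne
  have h1 := congrFun (congrFun hH ⟨l, hl⟩) ⟨l', hl'⟩
  rw [Matrix.one_apply_ne (by intro h; exact hne (Subtype.ext_iff.1 h)), Matrix.mul_apply] at h1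
  have hsq : ((1 / Real.sqrt B4.card : ℝ) : ℂ) ≠ 0 := by
    rw [B4_card]
    have : (0 : ℝ) < 1 / Real.sqrt ((4 : ℕ) : ℝ) := by positivity
    exact_mod_cast this.ne'
  have h2 : ∀ b : B4, H R12 B4 L ⟨l, hl⟩ b * (H R12 B4 L)ᴴ b ⟨l', hl'⟩ =
      (((1 / Real.sqrt B4.card : ℝ) : ℂ) * ((1 / Real.sqrt B4.card : ℝ) : ℂ)) *
      Complex.exp (2 * π * Complex.I *
      ((∑ i, ((R12.map (Int.cast : ℤ → ℝ))⁻¹.mulVec (fun j => ((b : Fin 1 → ℤ) j : ℝ))) i *
        ((l i : ℝ) - (l' i : ℝ)) : ℝ) : ℂ)) := by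
    intro b
    rw [Matrix.conjTranspose_apply]
    unfold H
    rw [Matrix.of_apply, Matrix.of_apply]
    show _ * (starRingEnd ℂ) _ = _
    rw [map_mul, Complex.conj_ofReal, chi_conj]
    unfold chi
    rw [mul_mul_mul_comm, ← Complex.exp_add]
    congr 2
    simp only [mul_sub, Finset.sum_sub_distrib]
    push_cast
    ring
  simp only [h2] at h1
  rw [← Finset.mul_sum] at h1
  have h3 := (mul_eq_zero.1 h1).resolve_left (mul_ne_zero hsq hsq)
  rw [← h3]
  exact (Finset.sum_coe_sort B4 (fun b : Fin 1 → ℤ => Complex.exp (2 * π * Complex.I *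
      ((∑ i, ((R12.map (Int.cast : ℤ → ℝ))⁻¹.mulVec (fun j => (b j : ℝ))) i *
        ((l i : ℝ) - (l' i : ℝ)) : ℝ) : ℂ)))).symm

/-- **Q1 has a negative answer.** For `R = (12)` and `B = {0, 1, 8, 9}` (dimension one) the
self-affine measure is spectral and has no overlap, but there is no `L ⊂ ℤ` for which `(R, B, L)` is
a Hadamard triple. The digits are moreover pairwise incongruent modulo `12`. -/
theorem result :
    ∃ (R : Matrix (Fin 1) (Fin 1) ℤ) (B : Finset (Fin 1 → ℤ)) (μ : Measure (Fin 1 → ℝ))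
      (T : Set (Fin 1 → ℝ)),
      R = Matrix.diagonal (fun _ => 12) ∧
      B = {fun _ => 0, fun _ => 1, fun _ => 8, fun _ => 9} ∧
      Expanding R ∧ 2 ≤ B.card ∧
      IsSelfAffine R B μ ∧ IsAttractor R B T ∧
      IsSpectral μ ∧ NoOverlap R B μ T ∧
      ∀ L : Finset (Fin 1 → ℤ), ¬ IsHadamardTriple R B L :=
  ⟨R12, B4, M, T12, rfl, rfl, R12_charpoly, by rw [B4_card]; norm_num,
    ⟨inferInstance, M_self⟩, attractor, spectral, no_overlap, no_hadamard⟩

end Pool.Agent.Results.MP_a3bfa4_an.SpectralNoHadamard
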